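import Pool.Agent.Helper83.TW.Goals1

/-! Packet TW-GStep (MP_39e2b7_an): assembly of one step of the scheme. -/

set_option autoImplicit false

namespace Pool.Agent.Helper59.TW

open Complex Set Pool.Agent.Helper83.TW

theorem fc_zero (E : ℂ × ℂ → ℂ) (w : ℂ) : fc E 0 w = ∫ x in (0:ℝ)..1, E ((x : ℂ), w) := by
  unfold fc
  refine intervalIntegral.integral_congr ?_
  intro x _
  simp

theorem fc_zero_sym (E : ℂ × ℂ → ℂ) (R s : ℝ) (hR : 0 < R) (h : Hol E (Dom R s)) (w : ℂ)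
    (hw : w ∈ Om s) : fc E 0 (cj w) = cj (fc E 0 w) := by
  rw [fc_zero, fc_zero]
  have h1 : ∀ x : ℝ, E ((x : ℂ), cj w) = cj (E ((x : ℂ), w)) := by
    intro x
    have := h.sym ((x : ℂ), w) ⟨by simpa using hR, hw⟩
    simpa using this
  simp_rw [h1]
  rw [intervalIntegral.integral_of_le zero_le_one, intervalIntegral.integral_of_le zero_le_one]
  exact integral_conj

theorem gStep (hRESC : GRESC) (hCoh : GCoh) (hFour : GFour) (hEE1 : GEE1) (hTT : GTT)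
    (hInv : GInv) (hNewO : GNewO) (hErr : GErr) : GStep := by
  intro ρ r s δ Λ η M P g hg hper S c hS hc hE
  obtain ⟨_, _, holE, _⟩ := hEE1 ρ r s δ Λ η M P g hg S c hS hc
  have hres := hRESC ρ r s δ Λ η M P g hg hper S c hS hc hE
  obtain ⟨κ, hκ1, hκ2, hκ3⟩ := hCoh ρ r s δ Λ η M P (Err g S) holE hE hres
  have hδ := P.hδ0
  have hρ := P.hρ0
  have hs := P.hs0
  have hη := P.hη0
  have hR : 0 < r - δ := by linarith [P.hr0]
  obtain ⟨f1, f2, _⟩ := hFour (r - δ) s η (Err g S) hR hs holE.diff holE.per hE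
  have hE0 : Hol1 (fc (Err g S) 0) (Om s) :=
    ⟨f1 0, fun w hw => fc_zero_sym (Err g S) (r - δ) s hR holE w hw⟩
  have bE0 : ∀ w ∈ Om s, ‖fc (Err g S) 0 w‖ ≤ η := by
    intro w hw
    have := f2 0 w hw
    simpa using this
  have hCor : Cor κ (fc (Err g S) 0) r s δ Λ η := ⟨hκ1, hκ2, hE0, bE0⟩
  obtain ⟨ht1, ht2, _, _⟩ := hTT ρ r s δ Λ η M P S c hS hc κ (fc (Err g S) 0) hCor
  have hΛ := P.hΛ
  have hΛ1 : 1 ≤ Λ := by linarith
  have hν : 4 * (Λ^5 * η) ≤ δ / 2 := by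
    have h1 : 1 ≤ Λ * δ := P.M_le
    have h2 : Λ^40 * η ≤ 1 := P.hη
    have h3 : Λ^7 ≤ Λ^40 := pow_le_pow_right₀ hΛ1 (by norm_num)
    have h4 : Λ^7 * η ≤ 1 := (mul_le_mul_of_nonneg_right h3 hη.le).trans h2
    have h5 : 8 * (Λ^6 * η) ≤ Λ^7 * η := by
      have : Λ^7 * η = Λ * (Λ^6 * η) := by ring
      rw [this]
      exact mul_le_mul_of_nonneg_right (by linarith) (by positivity)
    have h6 : 8 * (Λ^6 * η) ≤ Λ * δ := h5.trans (h4.trans h1)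
    have h7 : Λ * (8 * (Λ^5 * η)) ≤ Λ * δ := by
      have : Λ * (8 * (Λ^5 * η)) = 8 * (Λ^6 * η) := by ring
      rw [this]; exact h6
    have h8 : 8 * (Λ^5 * η) ≤ δ := le_of_mul_le_mul_left h7 (by linarith)
    linarith
  obtain ⟨τ, hτ1, hτ2, hτ3⟩ := hInv (r - 6*δ) (3*s/8) (δ/2) (Λ^5 * η) (tt S κ (fc (Err g S) 0))
    (by linarith) (by linarith) (by positivity) hν ht1 ht2
  have hrr : r - 6*δ - δ/2 = r - 13/2*δ := by ring
  rw [hrr] at hτ1 hτ2 hτ3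
  have hTau : Tau S κ (fc (Err g S) 0) τ r s δ Λ η := ⟨hτ1, hτ2, hτ3⟩
  obtain ⟨hO, hC⟩ := hNewO ρ r s δ Λ η M P S c hS hc κ (fc (Err g S) 0) τ hCor hTau
  exact ⟨newS S κ (fc (Err g S) 0) τ, hO, hC,
    hErr ρ r s δ Λ η M P g hg S c hS hc hE κ τ hCor hTau hκ3⟩

end Pool.Agent.Helper59.TW
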