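import Pool.Agent.Helper70.TW.Goals

/-!
# Project TW (MP_c7dfba_nt): packet TPMR (the twisted Tsen-Lang theorem)
-/

namespace Pool.Agent.Helper59.TW

open scoped Cardinal
open Pool.Agent.Helper70.TW Pool.Agent.Helper70.BU

universe u v

theorem TPM.succ {F : Type u} [Field F] {j : ℕ} (h : TPM F j) : TPM F (j + 1) := by
  intro ι κ Λ _ _ _ _ _ b α β hne hlt
  refine h ι κ Λ b α β hne fun k => lt_of_le_of_lt ?_ (hlt k)
  refine Finset.sum_le_sum fun l _ => ?_
  have h1 : 1 ≤ ∑ k', (α l k' + β l k') := by
    obtain ⟨k', hk'⟩ : ∃ k', α l k' ≠ β l k' := by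
      by_contra hcon
      push Not at hcon
      exact hne l (funext hcon)
    have h2 : α l k' + β l k' ≤ ∑ k', (α l k' + β l k') :=
      Finset.single_le_sum (f := fun k' => α l k' + β l k') (fun _ _ => Nat.zero_le _) (Finset.mem_univ k')
    omega
  exact Nat.pow_le_pow_right h1 (Nat.le_succ j)

theorem TPM.mono {F : Type u} [Field F] {j k : ℕ} (h : TPM F j) (hjk : j ≤ k) : TPM F k := by
  induction k, hjk using Nat.le_induction with
  | base => exact h
  | succ k _ ih => exact TPM.succ ih

theorem tpm_trdeg (hA : TPMA.{u}) (hS : TPMS.{u}) : ∀ (m : ℕ) (j : ℕ) (F K : Type u)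
    [Field F] [Field K] [Algebra F K], Algebra.trdeg F K ≤ (m : Cardinal.{u}) → TPM F j →
      TPM K (j + m) := by
  intro m
  induction m with
  | zero =>
    intro j F K _ _ _ htr h
    have h0 : Algebra.trdeg F K = 0 := by simpa using htr
    have := trdeg_eq_zero_iff.1 h0
    exact hA F K j h
  | succ m ih =>
    intro j F K _ _ _ htr h
    by_cases halg : Algebra.IsAlgebraic F K
    · exact TPM.mono (hA F K j h) (by omega)
    · obtain ⟨t, ht⟩ : ∃ t : K, ¬ IsAlgebraic F t := by
        by_contra hcon
        push Not at hcon
        exact halg ⟨hcon⟩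
      have h1 : TPM (IntermediateField.adjoin F ({t} : Set K)) (j + 1) := by
        refine hS F (IntermediateField.adjoin F ({t} : Set K))
          ⟨t, IntermediateField.mem_adjoin_simple_self F t⟩ ?_ ?_ j h
        · intro h2
          exact ht (h2.algebraMap (A := K))
        · intro x
          obtain ⟨r, s, hrs⟩ := (IntermediateField.mem_adjoin_simple_iff F (x : K)).mp x.2
          refine ⟨r, s, ?_⟩
          apply Subtype.ext
          have hc : ∀ q : Polynomial F, ((Polynomial.aeval (⟨t, IntermediateField.mem_adjoin_simple_self F t⟩ :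
              IntermediateField.adjoin F ({t} : Set K)) q : IntermediateField.adjoin F ({t} : Set K)) : K) =
              Polynomial.aeval t q := fun q =>
            IntermediateField.AdjoinSimple.coe_aeval_gen_apply (f := q) ..
          rw [IntermediateField.coe_div, hrs, hc, hc]
      have hadd := trdeg_add_eq F (IntermediateField.adjoin F ({t} : Set K)) (A := K)
      have hne : Algebra.trdeg F (IntermediateField.adjoin F ({t} : Set K)) ≠ 0 := by
        intro h0
        have halg' := trdeg_eq_zero_iff.1 h0
        apply ht
        have h2 := halg'.isAlgebraic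
          (⟨t, IntermediateField.mem_adjoin_simple_self F t⟩ :
            IntermediateField.adjoin F ({t} : Set K))
        exact h2.algebraMap (A := K)
      have hle : Algebra.trdeg (IntermediateField.adjoin F ({t} : Set K)) K ≤ (m : Cardinal.{u}) := by
        have h1le : (1 : Cardinal.{u}) ≤
            Algebra.trdeg F (IntermediateField.adjoin F ({t} : Set K)) :=
          Cardinal.one_le_iff_ne_zero.2 hne
        have h3 : Algebra.trdeg (IntermediateField.adjoin F ({t} : Set K)) K + 1 ≤
            (m : Cardinal.{u}) + 1 := by
          calc Algebra.trdeg (IntermediateField.adjoin F ({t} : Set K)) K + 1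
              ≤ Algebra.trdeg (IntermediateField.adjoin F ({t} : Set K)) K +
                Algebra.trdeg F (IntermediateField.adjoin F ({t} : Set K)) := by gcongr
            _ = Algebra.trdeg F K := by rw [add_comm, hadd]
            _ ≤ ((m + 1 : ℕ) : Cardinal.{u}) := htr
            _ = (m : Cardinal.{u}) + 1 := by push_cast; ring
        exact Cardinal.add_one_le_add_one_iff.1 h3
      have := ih (j + 1) (IntermediateField.adjoin F ({t} : Set K)) K hle h1
      exact TPM.mono this (by omega)

/-- real closed fields and isomorphisms -/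
theorem rc_equiv {R : Type u} {S : Type v} [Field R] [IsRealClosed R] [Field S] (e : R ≃+* S) : IsRealClosed S := by
  have hsum : ∀ s : S, IsSumSq s → IsSumSq (e.symm s) := by
    intro s hs
    induction hs with
    | zero => simp
    | sq_add a _ ih =>
      rw [map_add, map_mul]
      exact IsSumSq.sq_add _ ih
  refine { one_add_ne_zero := ?_, isSquare_or_isSquare_neg := ?_, exists_isRoot_of_odd_natDegree := ?_ }
  · intro s hs h0
    apply IsSemireal.one_add_ne_zero (hsum s hs)
    rw [← map_one e.symm, ← map_add, h0, map_zero]
  · intro x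
    rcases IsRealClosed.isSquare_or_isSquare_neg (e.symm x) with h | h
    · left
      simpa using h.map e
    · right
      simpa using h.map e
  · intro f hf
    obtain ⟨x, hx⟩ := IsRealClosed.exists_isRoot_of_odd_natDegree (R := R) (f := f.map (e.symm : S →+* R))
      (by rwa [Polynomial.natDegree_map])
    refine ⟨e x, ?_⟩
    have h1 : (e.symm : S →+* R) (Polynomial.eval (e x) f) = 0 := by
      rw [← Polynomial.eval_map_apply]
      simpa using hx
    exact (map_eq_zero _).mp h1

theorem tpmR : TPMZ.{u} → TPMA.{u} → TPMS.{u} → TPMR.{u, v} := by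
  intro hZ hA hS R K _ _ _ _ i htr
  have : IsRealClosed (⊥ : IntermediateField R K) := rc_equiv (IntermediateField.botEquiv R K).symm.toRingEquiv
  have h0 := hZ (⊥ : IntermediateField R K)
  have hle : Algebra.trdeg (⊥ : IntermediateField R K) K ≤ (i : Cardinal.{u}) := by
    have hadd := trdeg_add_eq R (⊥ : IntermediateField R K) (A := K)
    have h1 : Algebra.trdeg (⊥ : IntermediateField R K) K ≤ Algebra.trdeg R K := by
      rw [← hadd]
      exact self_le_add_left _ _
    exact h1.trans htr
  simpa using tpm_trdeg hA hS i 0 _ K hle h0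

end Pool.Agent.Helper59.TW
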